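import Pool.Agent.P.MP_06bfdf_gt.Y.Eul

open scoped Manifold ContDiff

namespace Pool.Agent.Results.MP_06bfdf_gt.NormalEuler

/-- `M` contains an open Möbius band: a continuous map from the plane whose fibres are the orbits
of the glide reflection `(s, t) ↦ (s + 1, -t)`. -/
def HasMoebius (M : Type) [TopologicalSpace M] : Prop :=
  ∃ g : ℝ × ℝ → M, Continuous g ∧
    ∀ p q : ℝ × ℝ, g p = g q ↔ ∃ m : ℤ, q = (p.1 + m, (-1) ^ m * p.2)

/-- `f` is a smooth embedding of the manifold `M` (modelled on `E`) in `F`. -/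
structure SmoothEmb (E : Type) [NormedAddCommGroup E] [NormedSpace ℝ E] {F : Type}
    [NormedAddCommGroup F] [NormedSpace ℝ F] {M : Type} [TopologicalSpace M] [ChartedSpace E M]
    (f : M → F) : Prop where
  smooth : ContMDiff 𝓘(ℝ, E) 𝓘(ℝ, F) ∞ f
  emb : Topology.IsEmbedding f
  imm : ∀ x : M, Function.Injective (mfderiv 𝓘(ℝ, E) 𝓘(ℝ, F) f x)

/-- The two-piece property: the preimage of every closed half-space is preconnected. -/
def TwoPiece {F : Type} [NormedAddCommGroup F] [InnerProductSpace ℝ F] {M : Type}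
    [TopologicalSpace M] (f : M → F) : Prop :=
  ∀ (u : F) (c : ℝ), IsPreconnected (f ⁻¹' {y : F | inner ℝ u y ≤ c})

/-- The differential of `g` at `x` applied to the vector `v`, read in the chart at `x`. -/
noncomputable def dir {E : Type} [NormedAddCommGroup E] [NormedSpace ℝ E] {F : Type}
    [NormedAddCommGroup F] [NormedSpace ℝ F] {M : Type} [TopologicalSpace M] [ChartedSpace E M]
    (g : M → F) (x : M) (v : E) : F :=
  mfderiv 𝓘(ℝ, E) 𝓘(ℝ, F) g x v

/-- The derivative of `g` at `x` along the coordinate vector number `i` of the chart at `x`. -/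
noncomputable def pd {M : Type} [TopologicalSpace M] [ChartedSpace (EuclideanSpace ℝ (Fin 2)) M]
    (g : M → EuclideanSpace ℝ (Fin 4)) (x : M) (i : Fin 2) : EuclideanSpace ℝ (Fin 4) :=
  dir g x (EuclideanSpace.single i 1 : EuclideanSpace ℝ (Fin 2))

/-- The determinant with rows `∂₀ f, ∂₁ f, ∂₀ s, ∂₁ s` at `x`. At a zero of `s` its sign is the sign
of the intersection of `f` with the push-off `f + ε s`; it does not depend on the chart. -/
noncomputable def Idx {M : Type} [TopologicalSpace M] [ChartedSpace (EuclideanSpace ℝ (Fin 2)) M]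
    (f s : M → EuclideanSpace ℝ (Fin 4)) (x : M) : ℝ :=
  Matrix.det (Matrix.of fun i j : Fin 4 => ![pd f x 0, pd f x 1, pd s x 0, pd s x 1] i j)

/-- `s` is a smooth normal vector field along `f`. -/
def NormalField {M : Type} [TopologicalSpace M] [ChartedSpace (EuclideanSpace ℝ (Fin 2)) M]
    (f s : M → EuclideanSpace ℝ (Fin 4)) : Prop :=
  ContMDiff (𝓡 2) (𝓡 4) ∞ s ∧ ∀ (x : M) (i : Fin 2), inner ℝ (s x) (pd f x i) = 0

/-- The normal Euler number of `f` is `e`: a smooth normal vector field along `f` has finitely many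
zeros, all nondegenerate, and the sum of their signs is `e`. -/
def EulerNumber {M : Type} [TopologicalSpace M] [ChartedSpace (EuclideanSpace ℝ (Fin 2)) M]
    (f : M → EuclideanSpace ℝ (Fin 4)) (e : ℤ) : Prop :=
  ∃ s : M → EuclideanSpace ℝ (Fin 4), NormalField f s ∧
    ∃ Z : Finset M, (∀ x : M, s x = 0 ↔ x ∈ Z) ∧ (∀ x ∈ Z, Idx f s x ≠ 0) ∧
      ∑ x ∈ Z, (SignType.sign (Idx f s x) : ℤ) = e

/-- For every odd `k ≥ 3` and every integer `e` with `|e| ≤ 2 k - 4` and `e ≡ 2 k` modulo 4, the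
connected sum of `k` projective planes (a closed surface which contains a Möbius band and has `2 ^ k`
homomorphisms from its fundamental group to `Z/2`) has a smooth embedding in Euclidean 4-space with
the two-piece property and normal Euler number `e`. -/
theorem result (k : ℕ) (_ : Odd k) (hk : 3 ≤ k) (e : ℤ) (he : |e| ≤ 2 * k - 4)
    (h4 : e ≡ 2 * k [ZMOD 4]) :
    ∃ (M : Type) (_ : TopologicalSpace M) (_ : ChartedSpace (EuclideanSpace ℝ (Fin 2)) M)
      (_ : IsManifold (𝓡 2) ∞ M) (_ : CompactSpace M) (_ : ConnectedSpace M) (_ : T2Space M)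
      (f : M → EuclideanSpace ℝ (Fin 4)),
      (∀ x : M, Nat.card (FundamentalGroup M x →* Multiplicative (ZMod 2)) = 2 ^ k) ∧
      HasMoebius M ∧ SmoothEmb (EuclideanSpace ℝ (Fin 2)) f ∧ TwoPiece f ∧ EulerNumber f e := by
  obtain ⟨a, b, rfl, rfl⟩ : ∃ a b : ℕ, k = b + 1 + a + 1 ∧ e = 2 * (b - a) := by
    rw [abs_le] at he
    rw [Int.ModEq] at h4
    exact ⟨((2 * k - 4 - e) / 4).toNat, ((2 * k - 4 + e) / 4).toNat, by omega, by omega⟩
  obtain ⟨I, hI⟩ := Pool.Agent.P.MP_06bfdf_gt.Y.exists_inn (b + 1 + a) b (by omega)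
  obtain ⟨P, hP⟩ := Pool.Agent.P.MP_06bfdf_gt.Y.exists_cr I.toInn
  let x₀ : P.S := ⟨_, ((P.nn true).mem _ (P.nn_W true 0)).1⟩
  obtain ⟨h1, h2, h3, h5, h6, h7, h8, h9, h10⟩ := P.main x₀
  obtain ⟨s, s1, s2, h⟩ := P.euler I hP x₀
  rw [Pool.Agent.P.MP_06bfdf_gt.Y.sum_sg I hI] at h
  let _ := Pool.Agent.P.MP_06bfdf_gt.charted
    (fun C : {C : Pool.Agent.P.MP_06bfdf_gt.Chart P.S // P.Imm C} => C.1) x₀ P.cover
  exact ⟨P.S, inferInstance, inferInstance, h1, h2, h3, inferInstance, _, h8, h9, ⟨h5, h6, h7⟩,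
    h10, s, ⟨s1, s2⟩, h⟩

end Pool.Agent.Results.MP_06bfdf_gt.NormalEuler
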